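import Pool.Agent.Lib.MP_33d9ce_co.Packing

/-!
# Edge-disjoint spanning hypercubes in dense blow-ups of hypercubes
-/

set_option autoImplicit false

noncomputable section

namespace Pool.Agent.Results.MP_33d9ce_co.BlowupHosts

open Pool.Agent.Lib.MP_33d9ce_co

/-- **Theorem.** There is an absolute constant `c > 0` such that the following holds for all `m`, `k` and `t`.
Let `p : V → {0,1}^k` have all its fibres of size `2 ^ m`, and let `σ` be an involution of `{0,1}^k` which
preserves adjacency in `Q_k`.  If in the graph `G` on `V` every vertex `v` is non-adjacent to at most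
`2 ^ m / (2 k) - t (m + k)` vertices of the fibre of `z'` for every neighbour `z'` of `p v` in `Q_k`, and to at
most `c 2 ^ m / 2 ^ k - t (m + k)` other vertices of the fibre of `σ (p v)`, then `G` contains `t + 1` pairwise
edge-disjoint copies of `Q_{m+k}`.  (For `k = 0` the graph is almost complete; for `k = 1`, `σ` the negation and
`t = 0` this is the bipartite form of the question of Erdős.) -/
theorem result : ∃ c : ℝ, 0 < c ∧ ∀ (m k t : ℕ) (V : Type) [Fintype V] (G : SimpleGraph V)
    (p : V → (Fin k → Bool)) (σ : (Fin k → Bool) → (Fin k → Bool)),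
    (∀ z, {v | p v = z}.ncard = 2 ^ m) → (∀ z, σ (σ z) = z) →
    (∀ z z', (hypercube k).Adj z z' → (hypercube k).Adj (σ z) (σ z')) →
    (∀ v z', (hypercube k).Adj (p v) z' →
      2 * k * ({u | p u = z' ∧ ¬ G.Adj v u}.ncard + t * (m + k)) ≤ 2 ^ m) →
    (∀ v, ({u | u ≠ v ∧ p u = σ (p v) ∧ ¬ G.Adj v u}.ncard : ℝ) + t * (m + k) ≤
      c * 2 ^ m / 2 ^ k) →
    Packs (m + k) (t + 1) G :=
  Packing.packing

end Pool.Agent.Results.MP_33d9ce_co.BlowupHosts
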