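import Pool.Agent.Lib.MP_33d9ce_co.Cst.D.Final

/-!
# Minimum degree thresholds forcing a spanning hypercube: constant density

`threshold n` is the number `u_n` of the problem.
-/

set_option autoImplicit false

noncomputable section

namespace Pool.Agent.Results.MP_33d9ce_co.ConstantDensity

open Pool.Agent.Lib.MP_33d9ce_co

/-- **Theorem.** There is an absolute constant `c > 0` with `u_n ≥ c 2 ^ n` for all `n ≥ 1`: every graph on
`2 ^ n` vertices with minimum degree greater than `(1 - c) 2 ^ n` contains `Q_n`.  For all large `n` one can take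
`c = 1 / 10 ^ 24`. -/
theorem result :
    (∃ c : ℝ, 0 < c ∧ ∀ n : ℕ, 1 ≤ n → c * 2 ^ n ≤ threshold n) ∧
    ∃ n0 : ℕ, ∀ n ≥ n0, (2 : ℝ) ^ n / 10 ^ 24 ≤ threshold n :=
  ⟨Cst.f_thr.2, Cst.f_thr.1⟩

end Pool.Agent.Results.MP_33d9ce_co.ConstantDensity
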