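import Pool.Agent.Lib.MP_33d9ce_co.PackingProduct

/-!
# Edge-disjoint hypercubes in hosts with a product structure
-/

set_option autoImplicit false

noncomputable section

namespace Pool.Agent.Results.MP_33d9ce_co.ProductHosts

open Pool.Agent.Lib.MP_33d9ce_co

/-- **Theorem.** There is an absolute constant `c > 0` such that the following holds for all `m`, `k` and `t`.
Let `|B| = 2 ^ m`, let `σ` be an involution of `{0,1}^k` which preserves adjacency in `Q_k`, let `G` be a graph
on a finite set `V`, and let `φ 0, ..., φ t` be injective maps from `B × {0,1}^k` to `V` such that for all `j`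
and `b` the map `z ↦ φ j (b, z)` sends the edges of `Q_k` to edges of `G`, and no edge of `G` is of this form
for two different `j`.  If for all `j` and `b` the number of pairs `(z, b')` with `b' ≠ b` and `φ j (b, z)` not
adjacent to `φ j (b', σ z)` is at most `c 2 ^ m - 2 ^ k t (m + 2 k)`, then `G` contains `t + 1` pairwise
edge-disjoint copies of `Q_{m+k}`. -/
theorem result : ∃ c : ℝ, 0 < c ∧ ∀ (m k t : ℕ) (B V : Type) [Fintype B] [Fintype V]
    (σ : (Fin k → Bool) → (Fin k → Bool)) (G : SimpleGraph V)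
    (φ : Fin (t + 1) → B × (Fin k → Bool) → V),
    Fintype.card B = 2 ^ m → (∀ z, σ (σ z) = z) →
    (∀ z z', (hypercube k).Adj z z' → (hypercube k).Adj (σ z) (σ z')) →
    (∀ j, Function.Injective (φ j)) →
    (∀ j b z z', (hypercube k).Adj z z' → G.Adj (φ j (b, z)) (φ j (b, z'))) →
    (∀ i j, i ≠ j → ∀ b z z' b' y y', (hypercube k).Adj z z' → (hypercube k).Adj y y' →
      s(φ i (b, z), φ i (b, z')) ≠ s(φ j (b', y), φ j (b', y'))) →
    (∀ j b, (∑ z, ({b' | b' ≠ b ∧ ¬ G.Adj (φ j (b, z)) (φ j (b', σ z))}.ncard : ℝ)) +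
      2 ^ k * (t * (m + 2 * k)) ≤ c * 2 ^ m) →
    Packs (m + k) (t + 1) G :=
  PackingProduct.packing

end Pool.Agent.Results.MP_33d9ce_co.ProductHosts
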