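import Pool.Agent.Lib.MP_33d9ce_co.Defs
import Pool.Agent.Lib.MP_33d9ce_co.Upper

/-!
# An upper bound for the minimum degree threshold `u_n`

The definitions `hypercube`, `ContainsCube`, `admissible`, `threshold` of the statement are in
`Pool/Agent/Lib/MP_33d9ce_co/Defs.lean`.
-/

set_option autoImplicit false

namespace Pool.Agent.Results.MP_33d9ce_co.SeparatorBound

open Pool.Agent.Lib.MP_33d9ce_co

/-- For every `n ≥ 1` some graph on `2 ^ n` vertices in which every degree is at least
`(2 ^ n + C(n, n / 2)) / 2 - 2` does not contain `Q_n`; hence `u_n ≤ 2 ^ (n - 1) - C(n, n / 2) / 2 + 2`. -/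
theorem result (n : ℕ) (hn : 1 ≤ n) :
    (∃ (G : SimpleGraph (Fin (2 ^ n))) (_ : DecidableRel G.Adj),
      (∀ v, 2 ^ n + n.choose (n / 2) ≤ 2 * G.degree v + 4) ∧ ¬ ContainsCube n G) ∧
    IsGreatest (admissible n) (threshold n) ∧
    2 * threshold n + n.choose (n / 2) ≤ 2 ^ n + 4 :=
  ⟨exists_graph hn, threshold_isGreatest hn, upper hn (threshold_isGreatest hn).1⟩

end Pool.Agent.Results.MP_33d9ce_co.SeparatorBound
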